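import Mathlib

set_option autoImplicit false

namespace Pool.Agent.Helper213.Sidon

open Finset

variable {q : ℕ} [Fact q.Prime]

/-- Number of affine maps sending `x` into `W`. -/
theorem card_one (W : Finset (ZMod q)) (x : ZMod q) :
    (univ.filter fun ω : ZMod q × ZMod q => ω.1 * x + ω.2 ∈ W).card = q * W.card := by
  classical
  have h : (univ.filter fun ω : ZMod q × ZMod q => ω.1 * x + ω.2 ∈ W).card
      = ((univ : Finset (ZMod q)) ×ˢ W).card := by
    refine Finset.card_bij (fun ω _ => (ω.1, ω.1 * x + ω.2)) ?_ ?_ ?_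
    · intro ω hω
      simpa using hω
    · rintro ⟨a, b⟩ _ ⟨c, d⟩ _ h
      simp only [Prod.mk.injEq] at h
      obtain ⟨rfl, h⟩ := h
      simp only [Prod.mk.injEq, true_and]
      exact add_left_cancel h
    · rintro ⟨a, w⟩ hw
      refine ⟨(a, w - a * x), ?_, ?_⟩
      · simp only [mem_product, mem_univ, true_and] at hw
        simpa using hw
      · simp
  rw [h, card_product, card_univ, ZMod.card]

/-- Number of affine maps sending both of two different points into `W`. -/
theorem card_two (W : Finset (ZMod q)) (x y : ZMod q) (hxy : x ≠ y) :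
    (univ.filter fun ω : ZMod q × ZMod q => ω.1 * x + ω.2 ∈ W ∧ ω.1 * y + ω.2 ∈ W).card
      = W.card * W.card := by
  classical
  have hne : x - y ≠ 0 := sub_ne_zero.2 hxy
  have h : (univ.filter fun ω : ZMod q × ZMod q => ω.1 * x + ω.2 ∈ W ∧ ω.1 * y + ω.2 ∈ W).card
      = (W ×ˢ W).card := by
    refine Finset.card_bij (fun ω _ => (ω.1 * x + ω.2, ω.1 * y + ω.2)) ?_ ?_ ?_
    · intro ω hω
      simpa using hω
    · rintro ⟨a, b⟩ _ ⟨c, d⟩ _ h
      simp only [Prod.mk.injEq] at h
      obtain ⟨h1, h2⟩ := h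
      have h3 : (a - c) * (x - y) = 0 := by linear_combination h1 - h2
      have h4 : a - c = 0 := (mul_eq_zero.1 h3).resolve_right hne
      have h5 : a = c := sub_eq_zero.1 h4
      subst h5
      simp only [Prod.mk.injEq, true_and]
      exact add_left_cancel h1
    · rintro ⟨u, v⟩ hw
      refine ⟨((u - v) / (x - y), u - (u - v) / (x - y) * x), ?_, ?_⟩
      · simp only [mem_product] at hw
        have e1 : (u - v) / (x - y) * x + (u - (u - v) / (x - y) * x) = u := by ring
        have e2 : (u - v) / (x - y) * y + (u - (u - v) / (x - y) * x) = v := by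
          field_simp
          ring
        simp only [mem_filter, mem_univ, true_and]
        rw [e1, e2]
        exact hw
      · have e1 : (u - v) / (x - y) * x + (u - (u - v) / (x - y) * x) = u := by ring
        have e2 : (u - v) / (x - y) * y + (u - (u - v) / (x - y) * x) = v := by
          field_simp
          ring
        simp only [e1, e2]
  rw [h, card_product]

/-- Number of points of `B` sent into `W` by the affine map `ω`. -/
def cnt (B W : Finset (ZMod q)) (ω : ZMod q × ZMod q) : ℕ :=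
  (B.filter fun x => ω.1 * x + ω.2 ∈ W).card

theorem sum_cnt (B W : Finset (ZMod q)) :
    ∑ ω : ZMod q × ZMod q, cnt B W ω = B.card * (q * W.card) := by
  classical
  unfold cnt
  simp_rw [card_filter]
  rw [sum_comm]
  simp_rw [← card_filter]
  rw [sum_congr rfl fun x _ => card_one W x, sum_const, smul_eq_mul]

theorem sum_cnt_sq (B W : Finset (ZMod q)) :
    ∑ ω : ZMod q × ZMod q, cnt B W ω * cnt B W ω
      = B.card * (q * W.card) + (B.card * B.card - B.card) * (W.card * W.card) := by
  classical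
  have h1 : ∀ ω : ZMod q × ZMod q, cnt B W ω * cnt B W ω
      = ∑ x ∈ B ×ˢ B, if ω.1 * x.1 + ω.2 ∈ W ∧ ω.1 * x.2 + ω.2 ∈ W then 1 else 0 := by
    intro ω
    unfold cnt
    rw [← card_product, ← card_filter, ← filter_product]
  simp_rw [h1]
  rw [sum_comm]
  simp_rw [← card_filter]
  rw [← diag_union_offDiag (s := B), sum_union (disjoint_diag_offDiag B)]
  congr 1
  · rw [sum_diag]
    simp only [and_self]
    rw [sum_congr rfl fun x _ => card_one W x, sum_const, smul_eq_mul]
  · rw [sum_congr rfl fun x hx => card_two W x.1 x.2 (mem_offDiag.1 hx).2.2, sum_const,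
      smul_eq_mul, offDiag_card]

/-- Second moment selection: among affine maps there is one for which many of the windows
`W t` receive a point of `B`. -/
theorem select (B : Finset (ZMod q)) (T : Finset ℕ) (W : ℕ → Finset (ZMod q)) (h : ℕ)
    (hW : ∀ t ∈ T, (W t).card = h) :
    ∃ ω : ZMod q × ZMod q,
      (T.card : ℝ) * ((B.card : ℝ) * h / q - (B.card : ℝ) ^ 2 * h ^ 2 / (2 * q ^ 2)) ≤
        ((T.filter fun t => 1 ≤ cnt B (W t) ω).card : ℝ) := by
  classical
  have hq : (0 : ℝ) < q := by exact_mod_cast (Fact.out : q.Prime).pos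
  by_contra hcon
  push Not at hcon
  have h1 : ∀ ω : ZMod q × ZMod q, ∀ t,
      3 * (cnt B (W t) ω : ℝ) - (cnt B (W t) ω : ℝ) * (cnt B (W t) ω : ℝ)
        ≤ 2 * (if 1 ≤ cnt B (W t) ω then 1 else 0) := by
    intro ω t
    rcases Nat.lt_or_ge (cnt B (W t) ω) 1 with h0 | h0
    · have : cnt B (W t) ω = 0 := by omega
      rw [if_neg (by omega), this]
      simp
    · rw [if_pos h0]
      rcases Nat.lt_or_ge (cnt B (W t) ω) 2 with h2 | h2
      · have : cnt B (W t) ω = 1 := by omega
        rw [this]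
        norm_num
      · have : (2 : ℝ) ≤ (cnt B (W t) ω : ℝ) := by exact_mod_cast h2
        nlinarith
  have h2 : ∑ ω : ZMod q × ZMod q, ∑ t ∈ T,
      (3 * (cnt B (W t) ω : ℝ) - (cnt B (W t) ω : ℝ) * (cnt B (W t) ω : ℝ))
        ≤ ∑ ω : ZMod q × ZMod q, 2 * ((T.filter fun t => 1 ≤ cnt B (W t) ω).card : ℝ) := by
    refine sum_le_sum fun ω _ => ?_
    calc _ ≤ ∑ t ∈ T, (2 * (if 1 ≤ cnt B (W t) ω then 1 else 0) : ℝ) :=
          sum_le_sum fun t _ => h1 ω t
      _ = _ := by
          rw [← mul_sum]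
          congr 1
          rw [sum_boole]
  have h3 : ∑ ω : ZMod q × ZMod q, 2 * ((T.filter fun t => 1 ≤ cnt B (W t) ω).card : ℝ)
      < ∑ _ω : ZMod q × ZMod q, 2 * ((T.card : ℝ) * ((B.card : ℝ) * h / q -
          (B.card : ℝ) ^ 2 * h ^ 2 / (2 * q ^ 2))) := by
    refine sum_lt_sum_of_nonempty univ_nonempty fun ω _ => ?_
    have := hcon ω
    linarith
  rw [sum_const, card_univ, Fintype.card_prod, ZMod.card, nsmul_eq_mul] at h3
  rw [sum_comm] at h2
  have h4 : ∀ t ∈ T, ∑ ω : ZMod q × ZMod q,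
      (3 * (cnt B (W t) ω : ℝ) - (cnt B (W t) ω : ℝ) * (cnt B (W t) ω : ℝ))
        = 2 * ((B.card : ℝ) * (q * h)) - ((B.card : ℝ) ^ 2 - B.card) * (h * h) := by
    intro t ht
    rw [sum_sub_distrib, ← mul_sum]
    have e1 : (∑ ω : ZMod q × ZMod q, (cnt B (W t) ω : ℝ)) = (B.card : ℝ) * (q * h) := by
      have := sum_cnt B (W t)
      rw [hW t ht] at this
      exact_mod_cast this
    have e2 : (∑ ω : ZMod q × ZMod q, (cnt B (W t) ω : ℝ) * (cnt B (W t) ω : ℝ))
        = (B.card : ℝ) * (q * h) + ((B.card : ℝ) ^ 2 - B.card) * (h * h) := by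
      have := sum_cnt_sq B (W t)
      rw [hW t ht] at this
      have h5 : B.card ≤ B.card * B.card := Nat.le_mul_self _
      have h6 : ((∑ ω : ZMod q × ZMod q, cnt B (W t) ω * cnt B (W t) ω : ℕ) : ℝ)
        = ((B.card * (q * h) + (B.card * B.card - B.card) * (h * h) : ℕ) : ℝ) := by
        rw [this]
      push_cast [Nat.cast_sub h5] at h6
      rw [h6]
      ring
    rw [e1, e2]
    ring
  rw [sum_congr rfl h4, sum_const, nsmul_eq_mul] at h2
  have h7 : ((q * q : ℕ) : ℝ) * (2 * ((T.card : ℝ) * ((B.card : ℝ) * h / q -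
      (B.card : ℝ) ^ 2 * h ^ 2 / (2 * q ^ 2)))) =
      (T.card : ℝ) * (2 * ((B.card : ℝ) * (q * h)) - (B.card : ℝ) ^ 2 * (h * h)) := by
    push_cast
    field_simp
  rw [h7] at h3
  have h8 : (0 : ℝ) ≤ (T.card : ℝ) * ((B.card : ℝ) * (h * h)) := by positivity
  nlinarith [h2, h3, h8]

end Pool.Agent.Helper213.Sidon
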