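import Pool.Agent.Helper213.Sidon.Embed
import Pool.Agent.Helper213.Sidon.Count

set_option autoImplicit false

namespace Pool.Agent.Helper213.Sidon

open Finset

/-- Ruzsa's construction as a colouring: the residues modulo `p (p - 1)` are split into `p` classes
each of which is a Sidon set modulo `p (p - 1)`. -/
theorem ruzsa_color (p : ℕ) (hp : p.Prime) :
    ∃ col : ℕ → ZMod p, ∀ a b c d : ℕ, a < p * (p - 1) → b < p * (p - 1) → c < p * (p - 1) →
      d < p * (p - 1) → col b = col a → col c = col a → col d = col a →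
      a + b ≡ c + d [MOD p * (p - 1)] → (a = c ∧ b = d) ∨ (a = d ∧ b = c) := by
  have : Fact p.Prime := ⟨hp⟩
  obtain ⟨g, hg⟩ := IsCyclic.exists_generator (α := (ZMod p)ˣ)
  have hord : orderOf g = p - 1 := by
    rw [orderOf_eq_card_of_forall_mem_zpowers hg, Nat.card_eq_fintype_card, ZMod.card_units]
  have hco : Nat.Coprime p (p - 1) :=
    (Nat.coprime_self_sub_right (m := 1) (n := p) hp.one_le).2 (Nat.coprime_one_right p)
  refine ⟨fun t => (t : ZMod p) - ((g ^ t : (ZMod p)ˣ) : ZMod p), ?_⟩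
  have key : ∀ a c : ℕ, a < p * (p - 1) → c < p * (p - 1) →
      (c : ZMod p) - ((g ^ c : (ZMod p)ˣ) : ZMod p) = (a : ZMod p) - ((g ^ a : (ZMod p)ˣ) : ZMod p) →
      ((g ^ a : (ZMod p)ˣ) : ZMod p) = ((g ^ c : (ZMod p)ˣ) : ZMod p) → a = c := by
    intro a c ha hc h1 h2
    have h3 : a ≡ c [MOD p - 1] := by
      rw [← hord]
      exact pow_eq_pow_iff_modEq.1 (Units.ext h2)
    have h4 : (a : ZMod p) = (c : ZMod p) := by
      rw [h2] at h1
      exact (sub_left_injective h1).symm
    have h5 : a ≡ c [MOD p] := (ZMod.natCast_eq_natCast_iff _ _ _).1 h4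
    have h6 : a ≡ c [MOD p * (p - 1)] := (Nat.modEq_and_modEq_iff_modEq_mul hco).1 ⟨h5, h3⟩
    exact Nat.ModEq.eq_of_lt_of_lt h6 ha hc
  intro a b c d ha hb hc hd hb1 hc1 hd1 h
  simp only at hb1 hc1 hd1
  have hA : a + b ≡ c + d [MOD p] := Nat.ModEq.of_mul_right (p - 1) h
  have hB : a + b ≡ c + d [MOD p - 1] := Nat.ModEq.of_mul_left p h
  have hs : (a : ZMod p) + b = c + d := by
    have h2 := (ZMod.natCast_eq_natCast_iff _ _ _).2 hA
    push_cast at h2
    exact h2
  have hsum : ((g ^ a : (ZMod p)ˣ) : ZMod p) + ((g ^ b : (ZMod p)ˣ) : ZMod p)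
      = ((g ^ c : (ZMod p)ˣ) : ZMod p) + ((g ^ d : (ZMod p)ˣ) : ZMod p) := by
    linear_combination hs - hb1 + hc1 + hd1
  have hprod : ((g ^ a : (ZMod p)ˣ) : ZMod p) * ((g ^ b : (ZMod p)ˣ) : ZMod p)
      = ((g ^ c : (ZMod p)ˣ) : ZMod p) * ((g ^ d : (ZMod p)ˣ) : ZMod p) := by
    rw [← Units.val_mul, ← Units.val_mul, ← pow_add, ← pow_add]
    congr 1
    rw [← hord] at hB
    exact pow_eq_pow_iff_modEq.2 hB
  have hfac : (((g ^ a : (ZMod p)ˣ) : ZMod p) - ((g ^ c : (ZMod p)ˣ) : ZMod p)) *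
      (((g ^ a : (ZMod p)ˣ) : ZMod p) - ((g ^ d : (ZMod p)ˣ) : ZMod p)) = 0 := by
    linear_combination (((g ^ a : (ZMod p)ˣ) : ZMod p)) * hsum - hprod
  rcases mul_eq_zero.1 hfac with h0 | h0
  · left
    have e1 : ((g ^ a : (ZMod p)ˣ) : ZMod p) = ((g ^ c : (ZMod p)ˣ) : ZMod p) := sub_eq_zero.1 h0
    have e2 : ((g ^ b : (ZMod p)ˣ) : ZMod p) = ((g ^ d : (ZMod p)ˣ) : ZMod p) := by
      rw [e1] at hsum
      exact add_left_cancel hsum
    exact ⟨key a c ha hc hc1 e1, key b d hb hd (hd1.trans hb1.symm) e2⟩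
  · right
    have e1 : ((g ^ a : (ZMod p)ˣ) : ZMod p) = ((g ^ d : (ZMod p)ˣ) : ZMod p) := sub_eq_zero.1 h0
    have e2 : ((g ^ b : (ZMod p)ˣ) : ZMod p) = ((g ^ c : (ZMod p)ˣ) : ZMod p) := by
      rw [e1, add_comm] at hsum
      exact add_right_cancel hsum
    exact ⟨key a d ha hd hd1 e1, key b c hb hc (hc1.trans hb1.symm) e2⟩

/-- The cells of the circle: cell number `i` consists of the residues `v` with
`i ≤ M v / q < i + 1`. -/
def cell (q M : ℕ) (v : ZMod q) : ℕ := M * v.val / q

variable {q : ℕ} [Fact q.Prime]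

theorem cell_lt {M : ℕ} (hM : 0 < M) (v : ZMod q) : cell q M v < M := by
  unfold cell
  have hq : 0 < q := (Fact.out : q.Prime).pos
  rw [Nat.div_lt_iff_lt_mul hq]
  exact Nat.mul_lt_mul_of_pos_left (ZMod.val_lt v) hM

theorem cell_card_le {M : ℕ} (hM : 0 < M) (i : ℕ) :
    ((univ.filter fun v : ZMod q => cell q M v = i).card : ℝ) ≤ q / M + 1 := by
  classical
  have hq : 0 < q := (Fact.out : q.Prime).pos
  -- the values of the cell lie in an interval of length q / M
  have h1 : (univ.filter fun v : ZMod q => cell q M v = i).card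
      ≤ (Finset.Ico ((i * q + (M - 1)) / M) ((i * q + (M - 1)) / M + (q / M + 1))).card := by
    apply card_le_card_of_injOn (fun v => v.val)
    · intro v hv
      have hv' : cell q M v = i := by simpa using hv
      unfold cell at hv'
      have e1 := Nat.div_add_mod (M * v.val) q
      have e2 := Nat.mod_lt (M * v.val) hq
      rw [hv'] at e1
      have e3 := Nat.div_add_mod (i * q + (M - 1)) M
      have e4 := Nat.mod_lt (i * q + (M - 1)) hM
      have e5 := Nat.div_add_mod q M
      have e6 := Nat.mod_lt q hM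
      simp only [coe_Ico, Set.mem_Ico]
      set x := (i * q + (M - 1)) / M
      set y := q / M
      have hc : q * i = i * q := Nat.mul_comm _ _
      constructor
      · by_contra hcon
        push Not at hcon
        have : M * (v.val + 1) ≤ M * x := Nat.mul_le_mul_left _ hcon
        have e7 : M * (v.val + 1) = M * v.val + M := by ring
        omega
      · by_contra hcon
        push Not at hcon
        have : M * (x + (y + 1)) ≤ M * v.val := Nat.mul_le_mul_left _ hcon
        have e7 : M * (x + (y + 1)) = M * x + M * y + M := by ring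
        omega
    · intro v _ w _ h
      exact ZMod.val_injective q h
  have h2 : (Finset.Ico ((i * q + (M - 1)) / M) ((i * q + (M - 1)) / M + (q / M + 1))).card
      = q / M + 1 := by simp
  rw [h2] at h1
  calc ((univ.filter fun v : ZMod q => cell q M v = i).card : ℝ) ≤ ((q / M + 1 : ℕ) : ℝ) := by
        exact_mod_cast h1
    _ = ((q / M : ℕ) : ℝ) + 1 := by push_cast; ring
    _ ≤ q / M + 1 := by
        have := @Nat.cast_div_le ℝ _ _ _ q M
        linarith

end Pool.Agent.Helper213.Sidon
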