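import Pool.Agent.Helper213.Sidon.Color

set_option autoImplicit false

namespace Pool.Agent.Helper213.Sidon

open Finset

theorem pairs_image {α : Type*} [DecidableEq α] (B : Finset α) (f : α → ℕ) :
    2 * (B.card : ℝ) ≤ 2 * ((B.image f).card : ℝ)
      + ((B.offDiag.filter fun x => f x.1 = f x.2).card : ℝ) := by
  classical
  have h1 : (B.card : ℝ) = ∑ i ∈ B.image f, ((B.filter fun x => f x = i).card : ℝ) := by
    exact_mod_cast card_eq_sum_card_image f B
  have h2 : ((B.offDiag.filter fun x => f x.1 = f x.2).card : ℝ)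
      = ∑ i ∈ B.image f, (((B.filter fun x => f x = i).card : ℝ)
          * ((B.filter fun x => f x = i).card : ℝ) - ((B.filter fun x => f x = i).card : ℝ)) := by
    have e1 : (B.offDiag.filter fun x => f x.1 = f x.2).card
        = ∑ i ∈ B.image f, ((B.offDiag.filter fun x => f x.1 = f x.2).filter
            fun x => f x.1 = i).card := by
      apply card_eq_sum_card_fiberwise
      intro x hx
      have hx' := mem_filter.1 hx
      exact mem_image_of_mem f (mem_offDiag.1 hx'.1).1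
    rw [e1]
    push_cast
    apply sum_congr rfl
    intro i _
    have e2 : ((B.offDiag.filter fun x => f x.1 = f x.2).filter fun x => f x.1 = i)
        = (B.filter fun x => f x = i).offDiag := by
      ext x
      simp only [mem_filter, mem_offDiag]
      constructor
      · rintro ⟨⟨⟨h1, h2, h3⟩, h4⟩, h5⟩
        exact ⟨⟨h1, h5⟩, ⟨h2, h4 ▸ h5⟩, h3⟩
      · rintro ⟨⟨h1, h2⟩, ⟨h3, h4⟩, h5⟩
        exact ⟨⟨⟨h1, h3, h5⟩, h2.trans h4.symm⟩, h2⟩
    rw [e2, offDiag_card, Nat.cast_sub (Nat.le_mul_self _)]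
    push_cast
    ring
  have h3 : ((B.image f).card : ℝ) = ∑ i ∈ B.image f, (1 : ℝ) := by simp
  rw [h1, h2, h3, mul_sum, mul_sum, ← sum_add_distrib]
  apply sum_le_sum
  intro i hi
  obtain ⟨x, hx, hxi⟩ := mem_image.1 hi
  have h4 : 1 ≤ (B.filter fun x => f x = i).card :=
    card_pos.2 ⟨x, mem_filter.2 ⟨hx, hxi⟩⟩
  rcases Nat.lt_or_ge ((B.filter fun x => f x = i).card) 2 with h5 | h5
  · have : (B.filter fun x => f x = i).card = 1 := by omega
    rw [this]
    norm_num
  · have h6 : (2 : ℝ) ≤ ((B.filter fun x => f x = i).card : ℝ) := by exact_mod_cast h5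
    nlinarith

variable {q : ℕ} [Fact q.Prime]

theorem few_collisions (B : Finset (ZMod q)) {M : ℕ} (hM : 0 < M) :
    ∃ ω : ZMod q × ZMod q,
      ((B.offDiag.filter fun x => cell q M (ω.1 * x.1 + ω.2) = cell q M (ω.1 * x.2 + ω.2)).card : ℝ)
        ≤ (B.card : ℝ) ^ 2 * (1 / M + 1 / q) := by
  classical
  have hq : (0 : ℝ) < q := by exact_mod_cast (Fact.out : q.Prime).pos
  have hM' : (0 : ℝ) < M := by exact_mod_cast hM
  by_contra hcon
  push Not at hcon
  let C : ℕ → Finset (ZMod q) := fun i => univ.filter fun v : ZMod q => cell q M v = i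
  have h1 : ∀ x ∈ B.offDiag, ((univ.filter fun ω : ZMod q × ZMod q =>
      cell q M (ω.1 * x.1 + ω.2) = cell q M (ω.1 * x.2 + ω.2)).card : ℝ) ≤ q * (q / M + 1) := by
    intro x hx
    have hne := (mem_offDiag.1 hx).2.2
    have e1 : (univ.filter fun ω : ZMod q × ZMod q =>
        cell q M (ω.1 * x.1 + ω.2) = cell q M (ω.1 * x.2 + ω.2)).card
        = ∑ i ∈ range M, ((univ.filter fun ω : ZMod q × ZMod q =>
          cell q M (ω.1 * x.1 + ω.2) = cell q M (ω.1 * x.2 + ω.2)).filter fun ω =>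
            cell q M (ω.1 * x.1 + ω.2) = i).card := by
      apply card_eq_sum_card_fiberwise
      intro ω _
      simp only [coe_range, Set.mem_Iio]
      exact cell_lt hM _
    have e2 : ∀ i ∈ range M, ((univ.filter fun ω : ZMod q × ZMod q =>
          cell q M (ω.1 * x.1 + ω.2) = cell q M (ω.1 * x.2 + ω.2)).filter fun ω =>
            cell q M (ω.1 * x.1 + ω.2) = i).card = (C i).card * (C i).card := by
      intro i _
      rw [← card_two (C i) x.1 x.2 hne]
      congr 1
      ext ω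
      simp only [C, mem_filter, mem_univ, true_and]
      constructor
      · rintro ⟨h1, h2⟩
        exact ⟨h2, h1 ▸ h2⟩
      · rintro ⟨h1, h2⟩
        exact ⟨h1.trans h2.symm, h1⟩
    have e3 : ∑ i ∈ range M, (C i).card = q := by
      have : (univ : Finset (ZMod q)).card = ∑ i ∈ range M, (C i).card := by
        apply card_eq_sum_card_fiberwise
        intro v _
        simp only [coe_range, Set.mem_Iio]
        exact cell_lt hM _
      rw [← this, card_univ, ZMod.card]
    rw [e1, sum_congr rfl e2]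
    push_cast
    calc (∑ i ∈ range M, ((C i).card : ℝ) * ((C i).card : ℝ))
        ≤ ∑ i ∈ range M, ((C i).card : ℝ) * (q / M + 1) := by
          apply sum_le_sum
          intro i _
          exact mul_le_mul_of_nonneg_left (cell_card_le hM i) (by positivity)
      _ = (∑ i ∈ range M, ((C i).card : ℝ)) * (q / M + 1) := by rw [sum_mul]
      _ = q * (q / M + 1) := by
          congr 1
          exact_mod_cast e3
  have h2 : ∑ ω : ZMod q × ZMod q,
      ((B.offDiag.filter fun x => cell q M (ω.1 * x.1 + ω.2) = cell q M (ω.1 * x.2 + ω.2)).card : ℝ)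
      = ∑ x ∈ B.offDiag, ((univ.filter fun ω : ZMod q × ZMod q =>
      cell q M (ω.1 * x.1 + ω.2) = cell q M (ω.1 * x.2 + ω.2)).card : ℝ) := by
    simp_rw [card_filter]
    push_cast
    rw [sum_comm]
  have h3 : ∑ x ∈ B.offDiag, ((univ.filter fun ω : ZMod q × ZMod q =>
      cell q M (ω.1 * x.1 + ω.2) = cell q M (ω.1 * x.2 + ω.2)).card : ℝ)
      ≤ (B.card : ℝ) ^ 2 * (q * (q / M + 1)) := by
    calc _ ≤ ∑ _x ∈ B.offDiag, ((q : ℝ) * (q / M + 1)) := sum_le_sum h1
      _ = (B.offDiag.card : ℝ) * (q * (q / M + 1)) := by rw [sum_const, nsmul_eq_mul]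
      _ ≤ (B.card : ℝ) ^ 2 * (q * (q / M + 1)) := by
          apply mul_le_mul_of_nonneg_right _ (by positivity)
          rw [offDiag_card]
          have : B.card * B.card - B.card ≤ B.card * B.card := Nat.sub_le _ _
          rw [sq]
          exact_mod_cast this
  have h4 : ∑ _ω : ZMod q × ZMod q, (B.card : ℝ) ^ 2 * (1 / M + 1 / q)
      < ∑ ω : ZMod q × ZMod q, ((B.offDiag.filter fun x =>
        cell q M (ω.1 * x.1 + ω.2) = cell q M (ω.1 * x.2 + ω.2)).card : ℝ) :=
    sum_lt_sum_of_nonempty univ_nonempty fun ω _ => hcon ω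
  rw [sum_const, card_univ, Fintype.card_prod, ZMod.card, nsmul_eq_mul, h2] at h4
  have h5 : ((q * q : ℕ) : ℝ) * ((B.card : ℝ) ^ 2 * (1 / M + 1 / q))
      = (B.card : ℝ) ^ 2 * (q * (q / M + 1)) := by
    push_cast
    field_simp
  rw [h5] at h4
  exact absurd h3 (not_le.2 h4)

/-- One round of the covering: `2 p` Sidon sets cover all of `A` but a few points. -/
theorem cover_step (A : Finset ℝ) (p : ℕ) (hp : p.Prime) :
    ∃ 𝒮 : Finset (Finset ℝ), 𝒮.card ≤ 2 * p ∧
      (∀ S ∈ 𝒮, ∀ a ∈ S, ∀ b ∈ S, ∀ c ∈ S, ∀ d ∈ S,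
        a + b = c + d → (a = c ∧ b = d) ∨ (a = d ∧ b = c)) ∧
      ∃ B ⊆ A, (∀ x ∈ A, x ∈ B ∨ ∃ S ∈ 𝒮, x ∈ S) ∧
        (B.card : ℝ) ≤ (A.card : ℝ) ^ 2 / (4 * (p * (p - 1))) + 1 / 2 := by
  classical
  obtain ⟨col, hcol⟩ := ruzsa_color p hp
  have hp2 := hp.two_le
  set m := p * (p - 1) with hm_def
  have hm : 0 < m := Nat.mul_pos (by omega) (by omega)
  obtain ⟨q, hq, hqN, z, hzinj, hzadd⟩ := toZMod A (A.card ^ 2)
  have : Fact q.Prime := ⟨hq⟩
  have : Fact p.Prime := ⟨hp⟩
  have hM : 0 < 2 * m := by omega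
  obtain ⟨ω, hω⟩ := few_collisions (A.image z) hM
  let F : ℝ → ℕ := fun a => cell q (2 * m) (ω.1 * z a + ω.2)
  have hFlt : ∀ a, F a < 2 * m := fun a => cell_lt hM _
  -- representatives
  have hrep : ∀ i : ℕ, ∃ a : ℝ, i ∈ A.image F → a ∈ A ∧ F a = i := by
    intro i
    by_cases hi : i ∈ A.image F
    · obtain ⟨a, ha, hai⟩ := mem_image.1 hi
      exact ⟨a, fun _ => ⟨ha, hai⟩⟩
    · exact ⟨0, fun h => absurd h hi⟩
  choose r hr using hrep
  set R := (A.image F).image r with hR
  have hRA : R ⊆ A := by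
    intro x hx
    obtain ⟨i, hi, rfl⟩ := mem_image.1 hx
    exact (hr i hi).1
  have hRinj : ∀ x ∈ R, ∀ y ∈ R, F x = F y → x = y := by
    intro x hx y hy h
    obtain ⟨i, hi, rfl⟩ := mem_image.1 hx
    obtain ⟨j, hj, rfl⟩ := mem_image.1 hy
    rw [(hr i hi).2, (hr j hj).2] at h
    rw [h]
  have hRc : R.card = (A.image F).card := by
    apply card_image_of_injOn
    intro i hi j hj h
    have h1 := (hr i hi).2
    have h2 := (hr j hj).2
    rw [← h1, ← h2, h]
  let S : ℕ × ZMod p → Finset ℝ := fun jc => R.filter fun a => F a % 2 = jc.1 ∧ col (F a / 2) = jc.2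
  refine ⟨(range 2 ×ˢ (univ : Finset (ZMod p))).image S, ?_, ?_, A \ R, sdiff_subset, ?_, ?_⟩
  · refine card_image_le.trans ?_
    rw [card_product, card_range, card_univ, ZMod.card]
  · intro S' hS' a ha b hb c hc d hd h
    obtain ⟨⟨j, cc⟩, _, rfl⟩ := mem_image.1 hS'
    obtain ⟨haR, haj, hac⟩ := mem_filter.1 ha
    obtain ⟨hbR, hbj, hbc⟩ := mem_filter.1 hb
    obtain ⟨hcR, hcj, hcc⟩ := mem_filter.1 hc
    obtain ⟨hdR, hdj, hdc⟩ := mem_filter.1 hd
    simp only at haj hac hbj hbc hcj hcc hdj hdc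
    have hz := hzadd _ (hRA haR) _ (hRA hbR) _ (hRA hcR) _ (hRA hdR) h
    have hspec : ∀ x : ℝ, ∃ u : ℕ, (u : ZMod q) = ω.1 * z x + ω.2 ∧
        F x * q ≤ 2 * m * u ∧ 2 * m * u < (F x + 1) * q := by
      intro x
      refine ⟨(ω.1 * z x + ω.2).val, ZMod.natCast_zmod_val _, ?_, ?_⟩
      · exact Nat.div_mul_le_self _ _
      · have := Nat.lt_div_mul_add (a := 2 * m * (ω.1 * z x + ω.2).val) hq.pos
        calc 2 * m * (ω.1 * z x + ω.2).val
            < 2 * m * (ω.1 * z x + ω.2).val / q * q + q := this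
          _ = (F x + 1) * q := by
            show _ = (2 * m * (ω.1 * z x + ω.2).val / q + 1) * q
            ring
    obtain ⟨ua, hua, a1, a2⟩ := hspec a
    obtain ⟨ub, hub, b1, b2⟩ := hspec b
    obtain ⟨uc, huc, c1, c2⟩ := hspec c
    obtain ⟨ud, hud, d1, d2⟩ := hspec d
    have hsum : ((ua + ub : ℕ) : ZMod q) = ((uc + ud : ℕ) : ZMod q) := by
      push_cast
      rw [hua, hub, huc, hud]
      linear_combination ω.1 * hz
    have hmod := (ZMod.natCast_eq_natCast_iff _ _ _).1 hsum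
    obtain ⟨κ, hκ⟩ := (Nat.modEq_iff_dvd.1 hmod)
    push_cast at hκ
    set ta := F a / 2 with hta
    set tb := F b / 2 with htb
    set tc := F c / 2 with htc
    set td := F d / 2 with htd
    have fa : F a = 2 * ta + j := by omega
    have fb : F b = 2 * tb + j := by omega
    have fc : F c = 2 * tc + j := by omega
    have fd : F d = 2 * td + j := by omega
    rw [fa] at a1 a2
    rw [fb] at b1 b2
    rw [fc] at c1 c2
    rw [fd] at d1 d2
    zify at a1 a2 b1 b2 c1 c2 d1 d2
    have hqpos : (0 : ℤ) < q := by exact_mod_cast hq.pos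
    have hmk : (m : ℤ) * (uc + ud - (ua + ub)) = m * (q * κ) := by rw [hκ]
    have hmk' : (m : ℤ) * uc + m * ud - m * ua - m * ub = m * (q * κ) := by linarith
    have i1 : ((ta : ℤ) + tb) * q < (tc + td + 1 - m * κ) * q := by linarith
    have i2 : ((tc : ℤ) + td) * q < (ta + tb + 1 + m * κ) * q := by linarith
    have j1 := lt_of_mul_lt_mul_right i1 hqpos.le
    have j2 := lt_of_mul_lt_mul_right i2 hqpos.le
    have j3 : ((tc : ℤ) + td) - (ta + tb) = m * κ := by omega
    have hmodt : ta + tb ≡ tc + td [MOD m] := by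
      apply Nat.modEq_iff_dvd.2
      exact ⟨κ, by push_cast; exact j3⟩
    have lta : ta < m := by have := hFlt a; omega
    have ltb : tb < m := by have := hFlt b; omega
    have ltc : tc < m := by have := hFlt c; omega
    have ltd : td < m := by have := hFlt d; omega
    rcases hcol ta tb tc td lta ltb ltc ltd (hbc.trans hac.symm) (hcc.trans hac.symm)
      (hdc.trans hac.symm) hmodt with ⟨h1, h2⟩ | ⟨h1, h2⟩
    · left
      exact ⟨hRinj a haR c hcR (by rw [fa, fc, h1]), hRinj b hbR d hdR (by rw [fb, fd, h2])⟩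
    · right
      exact ⟨hRinj a haR d hdR (by rw [fa, fd, h1]), hRinj b hbR c hcR (by rw [fb, fc, h2])⟩
  · intro x hx
    by_cases hxR : x ∈ R
    · right
      refine ⟨S (F x % 2, col (F x / 2)), mem_image_of_mem S ?_, ?_⟩
      · simp only [mem_product, mem_range, mem_univ, and_true]
        exact Nat.mod_lt _ (by norm_num)
      · simp only [S, mem_filter, and_self, and_true]
        exact hxR
    · left
      exact mem_sdiff.2 ⟨hx, hxR⟩
  · have hBc : (A.image z).card = A.card := card_image_of_injOn fun a ha b hb h =>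
      hzinj a ha b hb h
    have h1 := pairs_image (A.image z) (fun v => cell q (2 * m) (ω.1 * v + ω.2))
    have h2 : ((A.image z).image fun v => cell q (2 * m) (ω.1 * v + ω.2)) = A.image F := by
      rw [image_image]
      rfl
    rw [h2, ← hRc, hBc] at h1
    rw [hBc] at hω
    have h3 : ((A \ R).card : ℝ) = A.card - R.card := by
      rw [card_sdiff_of_subset hRA, Nat.cast_sub (card_le_card hRA)]
    rw [h3]
    have hq0 : (0 : ℝ) < (q : ℝ) := by exact_mod_cast hq.pos
    have hpr : ((p - 1 : ℕ) : ℝ) = (p : ℝ) - 1 := by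
      rw [Nat.cast_sub (by omega)]
      simp
    have hmr : ((m : ℕ) : ℝ) = (p : ℝ) * (p - 1) := by
      rw [hm_def]
      push_cast
      rw [hpr]
    have hm0 : (0 : ℝ) < (m : ℝ) := by exact_mod_cast hm
    have h4 : (A.card : ℝ) ^ 2 / q ≤ 1 := by
      rw [div_le_one hq0]
      exact_mod_cast hqN
    have h5 : (A.card : ℝ) ^ 2 * (1 / ((2 * m : ℕ) : ℝ) + 1 / q)
        = 2 * ((A.card : ℝ) ^ 2 / (4 * (p * (p - 1)))) + (A.card : ℝ) ^ 2 / q := by
      push_cast
      rw [← hmr]
      field_simp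
      ring
    rw [h5] at hω
    linarith

end Pool.Agent.Helper213.Sidon
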