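import Mathlib

set_option autoImplicit false

namespace Pool.Agent.Helper213.Sidon

/-- A finite set of reals is mapped injectively to the integers so that all additive relations
are kept. -/
theorem toInt (A : Finset ℝ) :
    ∃ z : ℝ → ℤ, (∀ a ∈ A, ∀ b ∈ A, z a = z b → a = b) ∧
      ∀ a ∈ A, ∀ b ∈ A, ∀ c ∈ A, ∀ d ∈ A, a + b = c + d → z a + z b = z c + z d := by
  classical
  obtain ⟨f, hf⟩ := Module.exists_dual_forall_apply_ne_zero (K := ℚ) (M := ℝ)
    (ι := {x : A × A // x.1 ≠ x.2}) (fun x => (x.1.1 : ℝ) - (x.1.2 : ℝ))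
    (fun x => sub_ne_zero.2 fun h => x.2 (Subtype.ext h))
  have hfinj : ∀ a ∈ A, ∀ b ∈ A, f a = f b → a = b := by
    intro a ha b hb h
    by_contra hne
    refine hf ⟨(⟨a, ha⟩, ⟨b, hb⟩), fun h2 => hne (congrArg Subtype.val h2)⟩ ?_
    simp only [map_sub, h, sub_self]
  let D : ℕ := ∏ a ∈ A, (f a).den
  have hD : D ≠ 0 := Finset.prod_ne_zero_iff.2 fun a _ => (f a).den_nz
  have hint : ∀ a : ℝ, ∃ n : ℤ, a ∈ A → (n : ℚ) = (D : ℚ) * f a := by
    intro a
    by_cases ha : a ∈ A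
    · obtain ⟨e, he⟩ : (f a).den ∣ D := Finset.dvd_prod_of_mem _ ha
      refine ⟨(e : ℤ) * (f a).num, fun _ => ?_⟩
      have h1 : ((f a).den : ℚ) * f a = (f a).num := Rat.den_mul_eq_num _
      rw [he]
      push_cast
      rw [mul_comm ((f a).den : ℚ) (e : ℚ), mul_assoc, h1]
    · exact ⟨0, fun h => absurd h ha⟩
  choose z hz using hint
  refine ⟨z, ?_, ?_⟩
  · intro a ha b hb h
    apply hfinj a ha b hb
    have h1 := hz a ha
    have h2 := hz b hb
    rw [h, h2] at h1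
    have hD' : (D : ℚ) ≠ 0 := by exact_mod_cast hD
    exact (mul_left_cancel₀ hD' h1).symm
  · intro a ha b hb c hc d hd h
    have h1 : ((z a + z b : ℤ) : ℚ) = ((z c + z d : ℤ) : ℚ) := by
      push_cast
      rw [hz a ha, hz b hb, hz c hc, hz d hd, ← mul_add, ← mul_add, ← map_add, ← map_add, h]
    exact_mod_cast h1

/-- A finite set of reals is mapped injectively to the residues modulo a large prime so that all
additive relations are kept. -/
theorem toZMod (A : Finset ℝ) (q0 : ℕ) :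
    ∃ q : ℕ, q.Prime ∧ q0 ≤ q ∧ ∃ z : ℝ → ZMod q, (∀ a ∈ A, ∀ b ∈ A, z a = z b → a = b) ∧
      ∀ a ∈ A, ∀ b ∈ A, ∀ c ∈ A, ∀ d ∈ A, a + b = c + d → z a + z b = z c + z d := by
  classical
  obtain ⟨z, hz1, hz2⟩ := toInt A
  let B : ℤ := ∑ a ∈ A, |z a|
  have hB : ∀ a ∈ A, |z a| ≤ B := fun a ha =>
    Finset.single_le_sum (f := fun a => |z a|) (fun b _ => abs_nonneg _) ha
  obtain ⟨q, hq1, hq2⟩ := Nat.exists_infinite_primes (max q0 (2 * B.natAbs + 1))
  refine ⟨q, hq2, le_trans (le_max_left _ _) hq1, fun a => ((z a : ℤ) : ZMod q), ?_, ?_⟩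
  · intro a ha b hb h
    apply hz1 a ha b hb
    have h1 : (q : ℤ) ∣ z b - z a := (ZMod.intCast_eq_intCast_iff_dvd_sub _ _ _).1 h
    have h2 : (2 * B.natAbs + 1 : ℕ) ≤ q := le_trans (le_max_right _ _) hq1
    have h3 : |z b - z a| ≤ 2 * B := by
      have := hB a ha
      have := hB b hb
      have := abs_sub (z b) (z a)
      omega
    have hB0 : 0 ≤ B := Finset.sum_nonneg fun a _ => abs_nonneg _
    have h4 : |z b - z a| < q := by
      have : (2 * (B.natAbs : ℤ) + 1) ≤ q := by exact_mod_cast h2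
      rw [Int.natAbs_of_nonneg hB0] at this
      omega
    have h5 := Int.eq_zero_of_abs_lt_dvd h1 h4
    omega
  · intro a ha b hb c hc d hd h
    have := hz2 a ha b hb c hc d hd h
    show ((z a : ℤ) : ZMod q) + ((z b : ℤ) : ZMod q) = ((z c : ℤ) : ZMod q) + ((z d : ℤ) : ZMod q)
    rw [← Int.cast_add, ← Int.cast_add, this]

end Pool.Agent.Helper213.Sidon
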