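import Pool.Agent.Helper213.PNT

set_option autoImplicit false

namespace Pool.Agent.Helper213.Sidon

open Filter

/-- A consequence of the prime number theorem: for every `η > 0` and all large `x` there is a prime
in `(x, (1 + η) x]`. -/
theorem prime_between (η : ℝ) (hη : 0 < η) :
    ∀ᶠ x : ℝ in atTop, ∃ p : ℕ, p.Prime ∧ x < (p : ℝ) ∧ (p : ℝ) ≤ (1 + η) * x := by
  set ε : ℝ := η / (2 * (2 + η)) with hε
  have hε0 : 0 < ε := by positivity
  have hkey : 1 + ε < (1 + η) * (1 - ε) := by
    have : ε * (2 * (2 + η)) = η := by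
      rw [hε]
      field_simp
    nlinarith
  have h1 := PNT.theta_div_tendsto
  have h2 : ∀ᶠ x : ℝ in atTop, Chebyshev.theta x / x < 1 + ε :=
    h1.eventually_lt_const (by linarith)
  have h3 : ∀ᶠ x : ℝ in atTop, 1 - ε < Chebyshev.theta x / x :=
    h1.eventually_const_lt (by linarith)
  have h4 : Tendsto (fun x : ℝ => (1 + η) * x) atTop atTop :=
    tendsto_id.const_mul_atTop (by linarith)
  filter_upwards [h2, h4.eventually h3, eventually_gt_atTop 0] with x hx1 hx2 hx0
  have hy0 : 0 < (1 + η) * x := by positivity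
  rw [div_lt_iff₀ hx0] at hx1
  rw [lt_div_iff₀ hy0] at hx2
  have hlt : Chebyshev.theta x < Chebyshev.theta ((1 + η) * x) := by
    calc Chebyshev.theta x < (1 + ε) * x := hx1
      _ ≤ (1 - ε) * ((1 + η) * x) := by nlinarith
      _ < _ := hx2
  by_contra hcon
  push Not at hcon
  apply absurd hlt
  push Not
  unfold Chebyshev.theta
  apply Finset.sum_le_sum_of_subset_of_nonneg
  · intro p hp
    simp only [Finset.mem_filter, Finset.mem_Ioc] at hp ⊢
    obtain ⟨⟨hp1, hp2⟩, hp3⟩ := hp
    refine ⟨⟨hp1, ?_⟩, hp3⟩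
    by_contra hgt
    push Not at hgt
    have h5 : x < (p : ℝ) := (Nat.floor_lt hx0.le).1 hgt
    have h6 : (p : ℝ) ≤ (1 + η) * x := (Nat.le_floor_iff hy0.le).1 hp2
    exact absurd h6 (not_le.2 (hcon p hp3 h5))
  · intro p hp _
    simp only [Finset.mem_filter, Finset.mem_Ioc] at hp
    apply Real.log_nonneg
    exact_mod_cast hp.1.1

end Pool.Agent.Helper213.Sidon
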