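import Mathlib

set_option autoImplicit false

namespace Pool.Agent.Helper213.Sidon

/-- Ruzsa's construction: for a prime `p` there are `p - 1` residues modulo `p (p - 1)`
whose pairwise sums are distinct modulo `p (p - 1)`. -/
theorem ruzsa (p : ℕ) (hp : p.Prime) :
    ∃ T : Finset ℕ, T.card = p - 1 ∧ (∀ t ∈ T, t < p * (p - 1)) ∧
      ∀ a ∈ T, ∀ b ∈ T, ∀ c ∈ T, ∀ d ∈ T, a + b ≡ c + d [MOD p * (p - 1)] →
        (a = c ∧ b = d) ∨ (a = d ∧ b = c) := by
  haveI : Fact p.Prime := ⟨hp⟩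
  obtain ⟨g, hg⟩ := IsCyclic.exists_generator (α := (ZMod p)ˣ)
  have hord : orderOf g = p - 1 := by
    rw [orderOf_eq_card_of_forall_mem_zpowers hg, Nat.card_eq_fintype_card, ZMod.card_units]
  have hp1 : 0 < p - 1 := by have := hp.two_le; omega
  have hco : Nat.Coprime p (p - 1) := by
    have h := (Nat.coprime_self_sub_right (m := 1) (n := p) hp.one_le).2 (Nat.coprime_one_right p)
    exact h
  let f : ℕ → ℕ := fun j =>
    (Nat.chineseRemainder hco (((g ^ j : (ZMod p)ˣ) : ZMod p).val) j : ℕ)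
  have hf1 : ∀ j, ((f j : ℕ) : ZMod p) = ((g ^ j : (ZMod p)ˣ) : ZMod p) := by
    intro j
    have h := (Nat.chineseRemainder hco (((g ^ j : (ZMod p)ˣ) : ZMod p).val) j).2.1
    have h2 := (ZMod.natCast_eq_natCast_iff _ _ _).2 h
    rw [ZMod.natCast_zmod_val] at h2
    exact h2
  have hf2 : ∀ j, f j ≡ j [MOD p - 1] := fun j =>
    (Nat.chineseRemainder hco (((g ^ j : (ZMod p)ˣ) : ZMod p).val) j).2.2
  have hf3 : ∀ j, f j < p * (p - 1) := fun j =>
    Nat.chineseRemainder_lt_mul hco _ _ hp.ne_zero hp1.ne'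
  have hpow : ∀ i j : ℕ, i < p - 1 → j < p - 1 → g ^ i = g ^ j → i = j := by
    intro i j hi hj h
    rw [← hord] at hi hj
    exact pow_injOn_Iio_orderOf hi hj h
  have hinj : ∀ i < p - 1, ∀ j < p - 1, f i = f j → i = j := by
    intro i hi j hj h
    have h1 := hf2 i
    have h2 := hf2 j
    rw [h] at h1
    have h3 : i ≡ j [MOD p - 1] := h1.symm.trans h2
    exact Nat.ModEq.eq_of_lt_of_lt h3 hi hj
  refine ⟨(Finset.range (p - 1)).image f, ?_, ?_, ?_⟩
  · rw [Finset.card_image_of_injOn, Finset.card_range]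
    intro i hi j hj h
    exact hinj i (by simpa using hi) j (by simpa using hj) h
  · intro t ht
    obtain ⟨j, _, rfl⟩ := Finset.mem_image.1 ht
    exact hf3 j
  · intro a ha b hb c hc d hd h
    obtain ⟨i, hi, rfl⟩ := Finset.mem_image.1 ha
    obtain ⟨j, hj, rfl⟩ := Finset.mem_image.1 hb
    obtain ⟨k, hk, rfl⟩ := Finset.mem_image.1 hc
    obtain ⟨l, hl, rfl⟩ := Finset.mem_image.1 hd
    rw [Finset.mem_range] at hi hj hk hl
    have hA : f i + f j ≡ f k + f l [MOD p] := Nat.ModEq.of_mul_right (p - 1) h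
    have hB : f i + f j ≡ f k + f l [MOD p - 1] := Nat.ModEq.of_mul_left p h
    have hsum : ((g ^ i : (ZMod p)ˣ) : ZMod p) + ((g ^ j : (ZMod p)ˣ) : ZMod p)
        = ((g ^ k : (ZMod p)ˣ) : ZMod p) + ((g ^ l : (ZMod p)ˣ) : ZMod p) := by
      have h2 := (ZMod.natCast_eq_natCast_iff _ _ _).2 hA
      push_cast at h2
      rw [hf1, hf1, hf1, hf1] at h2
      exact h2
    have hC : i + j ≡ k + l [MOD p - 1] :=
      ((hf2 i).add (hf2 j)).symm.trans (hB.trans ((hf2 k).add (hf2 l)))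
    have hprod : ((g ^ i : (ZMod p)ˣ) : ZMod p) * ((g ^ j : (ZMod p)ˣ) : ZMod p)
        = ((g ^ k : (ZMod p)ˣ) : ZMod p) * ((g ^ l : (ZMod p)ˣ) : ZMod p) := by
      rw [← Units.val_mul, ← Units.val_mul, ← pow_add, ← pow_add]
      congr 1
      rw [← hord] at hC
      exact pow_eq_pow_iff_modEq.2 hC
    have hfac : (((g ^ i : (ZMod p)ˣ) : ZMod p) - ((g ^ k : (ZMod p)ˣ) : ZMod p)) *
        (((g ^ i : (ZMod p)ˣ) : ZMod p) - ((g ^ l : (ZMod p)ˣ) : ZMod p)) = 0 := by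
      linear_combination (((g ^ i : (ZMod p)ˣ) : ZMod p)) * hsum - hprod
    rcases mul_eq_zero.1 hfac with h0 | h0
    · left
      have e1 : ((g ^ i : (ZMod p)ˣ) : ZMod p) = ((g ^ k : (ZMod p)ˣ) : ZMod p) := sub_eq_zero.1 h0
      have e2 : ((g ^ j : (ZMod p)ˣ) : ZMod p) = ((g ^ l : (ZMod p)ˣ) : ZMod p) := by
        rw [e1] at hsum
        exact add_left_cancel hsum
      have e3 := hpow i k hi hk (Units.ext e1)
      have e4 := hpow j l hj hl (Units.ext e2)
      exact ⟨by rw [e3], by rw [e4]⟩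
    · right
      have e1 : ((g ^ i : (ZMod p)ˣ) : ZMod p) = ((g ^ l : (ZMod p)ˣ) : ZMod p) := sub_eq_zero.1 h0
      have e2 : ((g ^ j : (ZMod p)ˣ) : ZMod p) = ((g ^ k : (ZMod p)ˣ) : ZMod p) := by
        rw [e1, add_comm] at hsum
        exact add_right_cancel hsum
      have e3 := hpow i l hi hl (Units.ext e1)
      have e4 := hpow j k hj hk (Units.ext e2)
      exact ⟨by rw [e3], by rw [e4]⟩

end Pool.Agent.Helper213.Sidon
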