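import Pool.Agent.Helper213.Sidon.Ruzsa
import Pool.Agent.Helper213.Sidon.Embed
import Pool.Agent.Helper213.Sidon.Count

set_option autoImplicit false

namespace Pool.Agent.Helper213.Sidon

open Finset

/-- Left end of the window with index `t`. -/
def lft (q m t : ℕ) : ℕ := (t * q + (m - 1)) / m

/-- The window with index `t`, as a set of natural numbers. -/
def win (q m t : ℕ) : Finset ℕ := Finset.Ico (lft q m t) (lft q m t + q / (2 * m))

theorem win_spec {q m t u : ℕ} (hm : 0 < m) (hu : u ∈ win q m t) :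
    t * q ≤ m * u ∧ 2 * (m * u) < (2 * t + 1) * q := by
  unfold win at hu
  rw [Finset.mem_Ico] at hu
  obtain ⟨h1, h2⟩ := hu
  have e1 : t * q ≤ m * lft q m t := by
    unfold lft
    have := Nat.div_add_mod (t * q + (m - 1)) m
    have := Nat.mod_lt (t * q + (m - 1)) hm
    omega
  have e2 : m * lft q m t ≤ t * q + (m - 1) := by
    unfold lft
    exact Nat.mul_div_le _ _
  have e3 : 2 * m * (q / (2 * m)) ≤ q := Nat.mul_div_le _ _
  have e4 : u + 1 ≤ lft q m t + q / (2 * m) := h2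
  constructor
  · exact e1.trans (Nat.mul_le_mul_left _ h1)
  · have e5 : 2 * m * (u + 1) ≤ 2 * m * (lft q m t + q / (2 * m)) := Nat.mul_le_mul_left _ e4
    have e6 : 2 * m * (u + 1) = 2 * (m * u) + 2 * m := by ring
    have e7 : 2 * m * (lft q m t + q / (2 * m))
      = 2 * (m * lft q m t) + 2 * m * (q / (2 * m)) := by ring
    have e8 : (2 * t + 1) * q = 2 * (t * q) + q := by ring
    rw [e6, e7] at e5
    rw [e8]
    omega

theorem win_lt {q m t u : ℕ} (hm : 0 < m) (ht : t < m) (hu : u ∈ win q m t) : u < q := by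
  have h := (win_spec hm hu).2
  by_contra hcon
  push Not at hcon
  have h1 : (2 * t + 1) * q ≤ 2 * (m * u) := by
    calc (2 * t + 1) * q ≤ (2 * m) * u := Nat.mul_le_mul (by omega) hcon
      _ = 2 * (m * u) := by ring
  omega

theorem win_card (q m t : ℕ) : (win q m t).card = q / (2 * m) := by
  unfold win
  simp

/-- A Sidon subset as large as the second moment bound allows. -/
theorem finite_bound (A : Finset ℝ) (p : ℕ) (hp : p.Prime) :
    ∃ S ⊆ A, (∀ a ∈ S, ∀ b ∈ S, ∀ c ∈ S, ∀ d ∈ S,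
        a + b = c + d → (a = c ∧ b = d) ∨ (a = d ∧ b = c)) ∧
      (A.card : ℝ) / (2 * p) - (A.card : ℝ) ^ 2 / (8 * p ^ 2 * (p - 1)) - 1 ≤ (S.card : ℝ) := by
  classical
  obtain ⟨T, hTc, hTlt, hT⟩ := ruzsa p hp
  have hp2 := hp.two_le
  set m := p * (p - 1) with hm_def
  have hm : 0 < m := Nat.mul_pos (by omega) (by omega)
  obtain ⟨q, hq, hqN, z, hzinj, hzadd⟩ := toZMod A (A.card * p + 1)
  haveI : Fact q.Prime := ⟨hq⟩
  let W : ℕ → Finset (ZMod q) := fun t => (win q m t).image (fun u : ℕ => (u : ZMod q))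
  have hWc : ∀ t ∈ T, (W t).card = q / (2 * m) := by
    intro t ht
    rw [← win_card q m t]
    apply card_image_of_injOn
    intro u hu v hv huv
    have h1 := win_lt hm (hTlt t ht) (by simpa using hu)
    have h2 := win_lt hm (hTlt t ht) (by simpa using hv)
    have h3 : u ≡ v [MOD q] := (ZMod.natCast_eq_natCast_iff _ _ _).1 huv
    exact Nat.ModEq.eq_of_lt_of_lt h3 h1 h2
  have hBc : (A.image z).card = A.card := card_image_of_injOn fun a ha b hb h =>
    hzinj a ha b hb h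
  obtain ⟨ω, hω⟩ := select (A.image z) T W (q / (2 * m)) hWc
  set T' := T.filter fun t => 1 ≤ cnt (A.image z) (W t) ω with hT'
  have hex : ∀ t : ℕ, ∃ x : ℝ, t ∈ T' → x ∈ A ∧
      ∃ u ∈ win q m t, ω.1 * z x + ω.2 = (u : ZMod q) := by
    intro t
    by_cases ht : t ∈ T'
    · have h1 := (mem_filter.1 ht).2
      unfold cnt at h1
      obtain ⟨y, hy⟩ := card_pos.1 h1
      obtain ⟨hy1, hy2⟩ := mem_filter.1 hy
      obtain ⟨x, hx, rfl⟩ := mem_image.1 hy1
      obtain ⟨u, hu, hu2⟩ := mem_image.1 hy2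
      exact ⟨x, fun _ => ⟨hx, u, hu, hu2.symm⟩⟩
    · exact ⟨0, fun h => absurd h ht⟩
  choose s hs using hex
  have hs1 : ∀ t ∈ T', s t ∈ A := fun t ht => (hs t ht).1
  have hs2 : ∀ t ∈ T', ∃ u ∈ win q m t, ω.1 * z (s t) + ω.2 = (u : ZMod q) :=
    fun t ht => (hs t ht).2
  have hqpos : (0 : ℤ) < q := by exact_mod_cast hq.pos
  have key : ∀ a ∈ T', ∀ b ∈ T', ∀ c ∈ T', ∀ d ∈ T', s a + s b = s c + s d →
      (a = c ∧ b = d) ∨ (a = d ∧ b = c) := by
    intro a ha b hb c hc d hd h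
    obtain ⟨ua, hua, hua2⟩ := hs2 a ha
    obtain ⟨ub, hub, hub2⟩ := hs2 b hb
    obtain ⟨uc, huc, huc2⟩ := hs2 c hc
    obtain ⟨ud, hud, hud2⟩ := hs2 d hd
    have hz := hzadd _ (hs1 a ha) _ (hs1 b hb) _ (hs1 c hc) _ (hs1 d hd) h
    have hsum : ((ua + ub : ℕ) : ZMod q) = ((uc + ud : ℕ) : ZMod q) := by
      push_cast
      rw [← hua2, ← hub2, ← huc2, ← hud2]
      linear_combination ω.1 * hz
    have hmod := (ZMod.natCast_eq_natCast_iff _ _ _).1 hsum
    obtain ⟨κ, hκ⟩ := (Nat.modEq_iff_dvd.1 hmod)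
    push_cast at hκ
    obtain ⟨a1, a2⟩ := win_spec hm hua
    obtain ⟨b1, b2⟩ := win_spec hm hub
    obtain ⟨c1, c2⟩ := win_spec hm huc
    obtain ⟨d1, d2⟩ := win_spec hm hud
    zify at a1 a2 b1 b2 c1 c2 d1 d2
    have i1 : ((a : ℤ) + b) * q < (c + d + 1 - m * κ) * q := by
      have : (m : ℤ) * (uc + ud - (ua + ub)) = m * (q * κ) := by rw [hκ]
      nlinarith
    have i2 : ((c : ℤ) + d) * q < (a + b + 1 + m * κ) * q := by
      have : (m : ℤ) * (uc + ud - (ua + ub)) = m * (q * κ) := by rw [hκ]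
      nlinarith
    have j1 := lt_of_mul_lt_mul_right i1 hqpos.le
    have j2 := lt_of_mul_lt_mul_right i2 hqpos.le
    have j3 : ((c : ℤ) + d) - (a + b) = m * κ := by omega
    apply hT a (mem_filter.1 ha).1 b (mem_filter.1 hb).1 c (mem_filter.1 hc).1 d (mem_filter.1 hd).1
    apply Nat.modEq_iff_dvd.2
    exact ⟨κ, by push_cast; exact j3⟩
  have hsinj : Set.InjOn s T' := by
    intro a ha b hb h
    rcases key a ha a ha b hb b hb (by rw [h]) with h1 | h1
    · exact h1.1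
    · exact h1.1
  refine ⟨T'.image s, ?_, ?_, ?_⟩
  · intro x hx
    obtain ⟨t, ht, rfl⟩ := mem_image.1 hx
    exact hs1 t ht
  · intro x1 h1 x2 h2 x3 h3 x4 h4 h
    obtain ⟨a, ha, rfl⟩ := mem_image.1 h1
    obtain ⟨b, hb, rfl⟩ := mem_image.1 h2
    obtain ⟨c, hc, rfl⟩ := mem_image.1 h3
    obtain ⟨d, hd, rfl⟩ := mem_image.1 h4
    rcases key a ha b hb c hc d hd h with ⟨rfl, rfl⟩ | ⟨rfl, rfl⟩
    · left; exact ⟨rfl, rfl⟩
    · right; exact ⟨rfl, rfl⟩
  · rw [card_image_of_injOn hsinj]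
    refine le_trans ?_ hω
    rw [hBc, hTc]
    have hpr : ((p - 1 : ℕ) : ℝ) = (p : ℝ) - 1 := by
      rw [Nat.cast_sub (by omega)]
      simp
    have hp1 : (0 : ℝ) < (p : ℝ) - 1 := by
      have : (2 : ℝ) ≤ p := by exact_mod_cast hp2
      linarith
    have hp0 : (0 : ℝ) < (p : ℝ) := by linarith
    have hmr : ((m : ℕ) : ℝ) = (p : ℝ) * (p - 1) := by
      rw [hm_def]
      push_cast
      rw [hpr]
    have hq0 : (0 : ℝ) < (q : ℝ) := by exact_mod_cast hq.pos
    have hm0 : (0 : ℝ) < (m : ℝ) := by exact_mod_cast hm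
    have hup : ((q / (2 * m) : ℕ) : ℝ) ≤ q / (2 * m) := by
      have := @Nat.cast_div_le ℝ _ _ _ q (2 * m)
      push_cast at this
      exact this
    have hlo : (q : ℝ) / (2 * m) - 1 ≤ ((q / (2 * m) : ℕ) : ℝ) := by
      have h1 := Nat.lt_div_mul_add (a := q) (b := 2 * m) (by omega)
      have h2 : (q : ℝ) < ((q / (2 * m) : ℕ) : ℝ) * (2 * m) + 2 * m := by exact_mod_cast h1
      have h3 : (q : ℝ) / (2 * m) < ((q / (2 * m) : ℕ) : ℝ) + 1 := by
        rw [div_lt_iff₀ (by positivity)]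
        linarith
      linarith
    have hNq : (A.card : ℝ) * p ≤ q := by
      have : A.card * p ≤ q := by omega
      exact_mod_cast this
    set h : ℝ := ((q / (2 * m) : ℕ) : ℝ) with hh
    set N : ℝ := (A.card : ℝ) with hN
    have hN0 : 0 ≤ N := by positivity
    have hh0 : 0 ≤ h := by positivity
    -- lower estimate of the main term
    have t1 : N / (2 * m) - N / q ≤ N * h / q := by
      have : N * (q / (2 * m) - 1) / q ≤ N * h / q := by gcongr
      refine le_trans (le_of_eq ?_) this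
      field_simp
    have t2 : N ^ 2 * h ^ 2 / (2 * q ^ 2) ≤ N ^ 2 / (8 * m ^ 2) := by
      have : N ^ 2 * h ^ 2 / (2 * q ^ 2) ≤ N ^ 2 * (q / (2 * m)) ^ 2 / (2 * q ^ 2) := by gcongr
      refine le_trans this (le_of_eq ?_)
      field_simp
      ring
    rw [hpr]
    have t3 : ((p : ℝ) - 1) * (N / (2 * m) - N / q - N ^ 2 / (8 * m ^ 2)) ≤
        ((p : ℝ) - 1) * (N * h / q - N ^ 2 * h ^ 2 / (2 * q ^ 2)) := by
      apply mul_le_mul_of_nonneg_left _ hp1.le
      linarith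
    refine le_trans ?_ t3
    have t4 : ((p : ℝ) - 1) * (N / q) ≤ 1 := by
      rw [mul_div_assoc', div_le_one hq0]
      nlinarith
    have t5 : ((p : ℝ) - 1) * (N / (2 * m)) = N / (2 * p) := by
      rw [hmr]
      field_simp
    have t6 : ((p : ℝ) - 1) * (N ^ 2 / (8 * m ^ 2)) = N ^ 2 / (8 * p ^ 2 * (p - 1)) := by
      rw [hmr]
      field_simp
    have t7 : ((p : ℝ) - 1) * (N / (2 * m) - N / q - N ^ 2 / (8 * m ^ 2))
      = ((p : ℝ) - 1) * (N / (2 * m)) - ((p : ℝ) - 1) * (N / q)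
        - ((p : ℝ) - 1) * (N ^ 2 / (8 * m ^ 2)) := by ring
    rw [t7, t5, t6]
    linarith

end Pool.Agent.Helper213.Sidon
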